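import Pool.Agent.QUD.StmtsX
import Pool.Agent.Helper5_PM.M131

/-!
# Squad QUD, row LGX: the items of an arbitrary polygon at the first level
-/

set_option autoImplicit false

namespace Pool.Agent.QUD.H30

open MeasureTheory Complex Filter Topology ProbabilityTheory Pool.Agent.H16Iso Pool.Agent.H62T
open Pool.Agent.AEU Pool.Agent.XQ Pool.Agent.QUD
open Pool.Agent.AEU.H35

/-- the items of a function -/
structure It (X : Finset HP) (L : ℝ) (F : ℝ → ℝ) (g r : ℕ) (A B : List (ℝ × ℝ))
    (H : List ℝ) : Prop where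
  hA : ∀ p ∈ A, OkA p ∧ PA X L p
  hB : ∀ p ∈ B, OkB p ∧ Real.pi / 2 < p.1 ∧ PB X L p
  hH : ∀ α ∈ H, Real.pi / 2 < α ∧ α < Real.pi ∧ PH X L α
  sm : Small L fun κ => F κ
    - (-(g : ℝ) * Real.exp (-(L * κ)) - (r : ℝ) / 2 * Real.exp (-(L * κ)) + SumA L A κ
      + SumB L B κ + SumH L H κ)

theorem sumA_append (L : ℝ) (l l' : List (ℝ × ℝ)) (κ : ℝ) :
    SumA L (l ++ l') κ = SumA L l κ + SumA L l' κ := by
  unfold SumA
  rw [List.map_append, List.sum_append]

theorem sumB_append (L : ℝ) (l l' : List (ℝ × ℝ)) (κ : ℝ) :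
    SumB L (l ++ l') κ = SumB L l κ + SumB L l' κ := by
  unfold SumB
  rw [List.map_append, List.sum_append]

theorem sumH_append (L : ℝ) (l l' : List ℝ) (κ : ℝ) :
    SumH L (l ++ l') κ = SumH L l κ + SumH L l' κ := by
  unfold SumH
  rw [List.map_append, List.sum_append]

theorem It.add {X : Finset HP} {L : ℝ} {F F' : ℝ → ℝ} {g r g' r' : ℕ}
    {A B A' B' : List (ℝ × ℝ)} {H H' : List ℝ} (h : It X L F g r A B H)
    (h' : It X L F' g' r' A' B' H') :
    It X L (fun κ => F κ + F' κ) (g + g') (r + r') (A ++ A') (B ++ B') (H ++ H') := by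
  refine ⟨?_, ?_, ?_, ?_⟩
  · intro p hp
    rcases List.mem_append.1 hp with h1 | h1
    · exact h.hA p h1
    · exact h'.hA p h1
  · intro p hp
    rcases List.mem_append.1 hp with h1 | h1
    · exact h.hB p h1
    · exact h'.hB p h1
  · intro p hp
    rcases List.mem_append.1 hp with h1 | h1
    · exact h.hH p h1
    · exact h'.hH p h1
  · refine small_congr (small_add h.sm h'.sm) (Eventually.of_forall fun κ => ?_)
    simp only [sumA_append, sumB_append, sumH_append, Nat.cast_add]
    ring

theorem It.congr {X : Finset HP} {L : ℝ} {F F' : ℝ → ℝ} {g r : ℕ}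
    {A B : List (ℝ × ℝ)} {H : List ℝ} (h : It X L F g r A B H) (e : ∀ κ, F' κ = F κ) :
    It X L F' g r A B H :=
  ⟨h.hA, h.hB, h.hH, small_congr h.sm (Eventually.of_forall fun κ => by simp only [e κ])⟩

theorem ip_comm' (z w : ℂ) : ip z w = ip w z := by
  unfold ip
  ring

theorem item (h1 : KgxStmt) (h2 : VxxStatement) (h3 : TaxStatement) (h4 : TbxStatement)
    (h5 : ItgStatement) (g1 : GermAStmt) (g2 : GermBStmt) (g3 : GermB'Stmt) (g4 : GermDXStmt)
    (g5 : GermIsoStmt) (g6 : GermAhStmt) (g7 : GermBrStmt) (X : Finset HP) (L : ℝ) (hX : Pg X)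
    (hL : 0 < L) (hB : Below X L) (S : Finset HP) (hS : S ∈ N1 X L) :
    ∃ (g r : ℕ) (A B : List (ℝ × ℝ)) (H : List ℝ), It X L (Lap (EZs S)) g r A B H ∧
      0 < g + r + A.length + B.length + H.length := by
  classical
  obtain ⟨-, kGh, kA, kAh, kB, kBr, -, -⟩ := h5 g1 g2 g3 g4 g5 g6 g7 S L hL
  have hS1 : S.card = 3 := (Finset.mem_powersetCard.1 (Finset.mem_filter.1 hS).1).2
  have hS2 : Np S := (Finset.mem_filter.1 hS).2.1
  rcases h1 X L hX hL hB S hS with hk | ⟨a, b, hk⟩ | ⟨h, i, j, k, v, w, hsh, hSe, hlam⟩ |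
    ⟨h, i, j, q, v, d, hty, hSe, hlam, hpos⟩
  · refine ⟨1, 0, [], [], [], ⟨by simp, by simp, by simp, ?_⟩, by simp⟩
    refine small_congr (kGh hk) (Eventually.of_forall fun κ => ?_)
    simp only [SumA, SumB, SumH, List.map_nil, List.sum_nil, Nat.cast_one, Nat.cast_zero]
    ring
  · refine ⟨0, 1, [], [], [], ⟨by simp, by simp, by simp, ?_⟩, by simp⟩
    refine small_congr (kBr ⟨a, b, hk⟩) (Eventually.of_forall fun κ => ?_)
    simp only [SumA, SumB, SumH, List.map_nil, List.sum_nil, Nat.cast_one, Nat.cast_zero]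
    ring
  · obtain ⟨-, -, hij, hjk, hv, hw, hlam', -, tA, tAh, tAh', tPar⟩ := h3 X hX h i j k v w hsh
    have hlen : 2 * ‖v - w‖ = L := by
      rw [hv, hw, ← hlam, hlam']
      rfl
    rcases lt_or_eq_of_le hsh.obt with hp | hp
    · rcases lt_or_eq_of_le hsh.obt' with hq | hq
      · have hKA : KA S L (ip i.1 j.1) (ip j.1 k.1) := by
          have := tA hp hq
          rwa [hlam, ← hSe] at this
        obtain ⟨β, β', hok, hc, hc', hsm⟩ := kA _ _ hKA
        refine ⟨0, 0, [(β, β')], [], [], ⟨?_, by simp, by simp, ?_⟩, by simp⟩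
        · intro p hp'
          rw [List.mem_singleton] at hp'
          rw [hp']
          exact ⟨hok, i, j, k, v, w, hsh.vi, hsh.wk, hsh.ne, hc, hc', hlen⟩
        · refine small_congr hsm (Eventually.of_forall fun κ => ?_)
          simp only [SumA, SumB, SumH, List.map_nil, List.sum_nil, List.map_cons, List.sum_cons,
            Nat.cast_zero]
          ring
      · have hKA : KAh S L (ip i.1 j.1) := by
          have := tAh hp hq.symm
          rwa [hlam, ← hSe] at this
        obtain ⟨α, ha1, ha2, hc, hsm⟩ := kAh _ hKA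
        refine ⟨0, 0, [], [], [α], ⟨by simp, by simp, ?_, ?_⟩, by simp⟩
        · intro p hp'
          rw [List.mem_singleton] at hp'
          rw [hp']
          exact ⟨ha1, ha2, i, j, k, v, w, hsh.vi, hsh.wk, hsh.ne, hc, hq.symm, hlen⟩
        · refine small_congr hsm (Eventually.of_forall fun κ => ?_)
          simp only [SumA, SumB, SumH, List.map_nil, List.sum_nil, List.map_cons, List.sum_cons,
            Nat.cast_zero]
          ring
    · rcases lt_or_eq_of_le hsh.obt' with hq | hq
      · have hKA : KAh S L (ip j.1 k.1) := by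
          have := tAh' hp.symm hq
          rwa [hlam, ← hSe] at this
        obtain ⟨α, ha1, ha2, hc, hsm⟩ := kAh _ hKA
        refine ⟨0, 0, [], [], [α], ⟨by simp, by simp, ?_, ?_⟩, by simp⟩
        · intro p hp'
          rw [List.mem_singleton] at hp'
          rw [hp']
          have hv5 := (h2 X hX).2.2.2.2.1
          refine ⟨ha1, ha2, k, j, i, w, v, (hv5 j k w hsh.wk).2.1, (hv5 i j v hsh.vi).2.1,
            hsh.ne.symm, ?_, ?_, ?_⟩
          · rw [ip_comm', hc]
          · rw [ip_comm', ← hp]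
          · rw [norm_sub_rev]
            exact hlen
        · refine small_congr hsm (Eventually.of_forall fun κ => ?_)
          simp only [SumA, SumB, SumH, List.map_nil, List.sum_nil, List.map_cons, List.sum_cons,
            Nat.cast_zero]
          ring
      · exfalso
        have hz := tPar hp.symm hq.symm
        refine hS2 i ?_ k ?_ hsh.ne hz
        · rw [hSe]; simp
        · rw [hSe]; simp
  · obtain ⟨-, -, hij, hiq, hjq, hv, hlam', -, hIs⟩ := h4 X hX h i j q v d hty
    have hNp : Np {i, j, q} := by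
      rw [← hSe]
      exact hS2
    have hI := hIs hNp
    rw [hlam] at hI
    have hKB : KB S L (ip i.1 j.1) (ip i.1 q.1) (ip j.1 q.1) := ⟨i, j, q, hSe, hS1, hI, hpos⟩
    obtain ⟨α, η, hok, hη0, hηα, hαπ, hc, ha, hb, hsm⟩ := kB _ _ _ hKB
    have hd : d = L / 2 := by
      rw [hlam] at hlam'
      linarith
    have hα : Real.pi / 2 < α := by
      by_contra hcon
      have h6 : 0 ≤ Real.cos α := Real.cos_nonneg_of_mem_Icc
        ⟨by linarith [Real.pi_pos], not_lt.1 hcon⟩
      rw [hc] at hpos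
      linarith
    refine ⟨0, 0, [], [(α, η)], [], ⟨by simp, ?_, by simp, ?_⟩, by simp⟩
    · intro p hp'
      rw [List.mem_singleton] at hp'
      rw [hp']
      refine ⟨hok, hα, i, j, q, v, hty.vi, hty.qP, hiq.symm, hjq.symm, ?_, ?_, hc, ha, hb⟩
      · have h7 := hI.len
        rw [← hv] at h7
        linarith
      · intro s hs hsq
        have h8 := hty.inner s hs hsq
        rwa [hd] at h8
    · refine small_congr hsm (Eventually.of_forall fun κ => ?_)
      simp only [SumA, SumB, SumH, List.map_nil, List.sum_nil, List.map_cons, List.sum_cons,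
        Nat.cast_zero]
      ring

theorem lgx (h1 : KgxStmt) (h2 : VxxStatement) (h3 : TaxStatement) (h4 : TbxStatement)
    (h5 : ItgStatement) (g1 : GermAStmt) (g2 : GermBStmt) (g3 : GermB'Stmt) (g4 : GermDXStmt)
    (g5 : GermIsoStmt) (g6 : GermAhStmt) (g7 : GermBrStmt) : LgxStmt := by
  classical
  intro X L hX hL hB
  have key : ∀ N : Finset (Finset HP), N ⊆ N1 X L →
      ∃ (g r : ℕ) (A B : List (ℝ × ℝ)) (H : List ℝ),
        It X L (fun κ => ∑ S ∈ N, Lap (EZs S) κ) g r A B H ∧
        (N = ∅ ∨ 0 < g + r + A.length + B.length + H.length) := by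
    intro N
    induction N using Finset.induction_on with
    | empty =>
      intro _
      refine ⟨0, 0, [], [], [], ⟨by simp, by simp, by simp, ?_⟩, Or.inl rfl⟩
      refine small_congr (small_zero L) (Eventually.of_forall fun κ => ?_)
      simp [SumA, SumB, SumH]
    | insert S N hSN ih =>
      intro hsub
      obtain ⟨g, r, A, B, H, hI, -⟩ := ih fun T hT => hsub (Finset.mem_insert_of_mem hT)
      obtain ⟨g', r', A', B', H', hI', hpos⟩ := item h1 h2 h3 h4 h5 g1 g2 g3 g4 g5 g6 g7 X L hX hL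
        hB S (hsub (Finset.mem_insert_self S N))
      refine ⟨g' + g, r' + r, A' ++ A, B' ++ B, H' ++ H, (hI'.add hI).congr fun κ => ?_,
        Or.inr ?_⟩
      · rw [Finset.sum_insert hSN]
      · simp only [List.length_append]
        omega
  obtain ⟨g, r, A, B, H, hI, hne⟩ := key (N1 X L) (Finset.Subset.refl _)
  exact ⟨g, r, A, B, H, hI.hA, hI.hB, hI.hH, hne, hI.sm⟩

end Pool.Agent.QUD.H30
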